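import Pool.Agent.helper17.MLG.Spec

/-!
# MP_84f457_gt, project mlg, row AFF: a concave function which is not strictly concave is affine on an interval
-/

set_option autoImplicit false
set_option linter.unusedSectionVars false

namespace Pool.Agent.MLG

open MeasureTheory Set Filter Topology Module
open scoped ENNReal ContDiff

theorem AFF_key (f : ℝ → ℝ) (hf : ConcaveOn ℝ (Ioi 0) f) (u v z : ℝ) (hu : 0 < u) (huz : u < z)
    (hzv : z < v) : (v - z) * f u + (z - u) * f v ≤ (v - u) * f z := by
  have hvu : 0 < v - u := by linarith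
  have h := hf.2 (show u ∈ Ioi (0 : ℝ) from hu) (show v ∈ Ioi (0 : ℝ) from by
    show 0 < v
    linarith) (show 0 ≤ (v - z) / (v - u) from div_nonneg (by linarith) hvu.le)
    (show 0 ≤ (z - u) / (v - u) from div_nonneg (by linarith) hvu.le)
    (by rw [← add_div, div_eq_one_iff_eq hvu.ne']; ring)
  have e : ((v - z) / (v - u)) • u + ((z - u) / (v - u)) • v = z := by
    simp only [smul_eq_mul]
    field_simp
    ring
  rw [e, smul_eq_mul, smul_eq_mul] at h
  have h2 := mul_le_mul_of_nonneg_left h hvu.le
  have e2 : (v - u) * ((v - z) / (v - u) * f u + (z - u) / (v - u) * f v) =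
      (v - z) * f u + (z - u) * f v := by
    field_simp
  rw [e2] at h2
  exact h2

/-- The case `x < y`. -/
theorem AFF_main (f : ℝ → ℝ) (hf : ConcaveOn ℝ (Ioi 0) f) (x y a b : ℝ) (hx : 0 < x) (hxy : x < y)
    (ha : 0 < a) (hb : 0 < b) (hab : a + b = 1) (h : f (a * x + b * y) ≤ a * f x + b * f y) :
    ∃ a b c L : ℝ, 0 < a ∧ a < b ∧ ∀ v ∈ Icc a b, f v = c + L * v := by
  obtain ⟨z, hz⟩ : ∃ z, z = a * x + b * y := ⟨_, rfl⟩
  rw [← hz] at h
  have hxz : x < z := by
    have : z - x = b * (y - x) := by
      rw [hz]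
      have : a = 1 - b := by linarith
      rw [this]
      ring
    have : 0 < b * (y - x) := mul_pos hb (by linarith)
    linarith
  have hzy : z < y := by
    have : y - z = a * (y - x) := by
      rw [hz]
      have : b = 1 - a := by linarith
      rw [this]
      ring
    have : 0 < a * (y - x) := mul_pos ha (by linarith)
    linarith
  have h' : (y - x) * f z ≤ (y - z) * f x + (z - x) * f y := by
    have e1 : y - z = a * (y - x) := by
      rw [hz]
      have : b = 1 - a := by linarith
      rw [this]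
      ring
    have e2 : z - x = b * (y - x) := by
      rw [hz]
      have : a = 1 - b := by linarith
      rw [this]
      ring
    rw [e1, e2]
    have := mul_le_mul_of_nonneg_left h (show 0 ≤ y - x by linarith)
    linarith
  refine ⟨x, z, f x - (f z - f x) / (z - x) * x, (f z - f x) / (z - x), hx, hxz, ?_⟩
  intro w hw
  have hzx : 0 < z - x := by linarith
  have hL : (f z - f x) / (z - x) * (z - x) = f z - f x := div_mul_cancel₀ _ hzx.ne'
  obtain ⟨L, hLe⟩ : ∃ L, L = (f z - f x) / (z - x) := ⟨_, rfl⟩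
  rw [← hLe] at hL ⊢
  rcases eq_or_lt_of_le hw.1 with h1 | h1
  · rw [← h1]
    ring
  rcases eq_or_lt_of_le hw.2 with h2 | h2
  · rw [h2]
    linarith
  have k1 := AFF_key f hf x z w hx h1 h2
  have k2 := AFF_key f hf w y z (by linarith) h2 hzy
  -- lower bound
  have l1 : (z - x) * (f x + L * (w - x)) ≤ (z - x) * f w := by
    have : (z - x) * (f x + L * (w - x)) = (z - w) * f x + (w - x) * f z := by
      have e : (z - x) * (L * (w - x)) = (f z - f x) * (w - x) := by
        rw [← hL]
        ring
      rw [mul_add, e]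
      ring
    rw [this]
    exact k1
  have l2 : f x + L * (w - x) ≤ f w := le_of_mul_le_mul_left l1 hzx
  -- upper bound
  have hyz : 0 < y - z := by linarith
  have u1 : (y - z) * ((z - x) * f w) ≤ (y - z) * ((z - x) * (f x + L * (w - x))) := by
    have e : (z - x) * (f x + L * (w - x)) = (z - w) * f x + (w - x) * f z := by
      have e : (z - x) * (L * (w - x)) = (f z - f x) * (w - x) := by
        rw [← hL]
        ring
      rw [mul_add, e]
      ring
    rw [e]
    have m1 := mul_le_mul_of_nonneg_left k2 hzx.le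
    have m2 := mul_le_mul_of_nonneg_left h' (show 0 ≤ z - w by linarith)
    nlinarith [m1, m2]
  have u2 : f w ≤ f x + L * (w - x) :=
    le_of_mul_le_mul_left (le_of_mul_le_mul_left u1 hyz) hzx
  have := le_antisymm u2 l2
  rw [this]
  ring

/-- **AFF**. -/
theorem AFF : AFF_stmt := by
  intro f hf hn
  have h : ∃ x ∈ Ioi (0 : ℝ), ∃ y ∈ Ioi (0 : ℝ), x ≠ y ∧ ∃ a b : ℝ, 0 < a ∧ 0 < b ∧ a + b = 1 ∧
      f (a * x + b * y) ≤ a * f x + b * f y := by
    by_contra hc
    apply hn
    refine ⟨hf.1, ?_⟩
    intro x hx y hy hxy a b ha hb hab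
    by_contra hlt
    exact hc ⟨x, hx, y, hy, hxy, a, b, ha, hb, hab, not_lt.1 hlt⟩
  obtain ⟨x, hx, y, hy, hxy, a, b, ha, hb, hab, h⟩ := h
  rcases lt_or_gt_of_ne hxy with h1 | h1
  · exact AFF_main f hf x y a b hx h1 ha hb hab h
  · refine AFF_main f hf y x b a hy h1 hb ha (by linarith) ?_
    rw [add_comm (b * y), add_comm (b * f y)]
    exact h

end Pool.Agent.MLG
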