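import Pool.Agent.helper17.MLG.Spec

/-!
# MP_84f457_gt, project mlg, row CTB: cut-off functions
-/

set_option autoImplicit false
set_option linter.unusedSectionVars false

namespace Pool.Agent.MLG

open MeasureTheory Set Filter Topology Module
open scoped ENNReal ContDiff

theorem CTB_eta : ∃ M : ℝ, 0 ≤ M ∧ ∀ s : ℝ, |deriv Real.smoothTransition s| ≤ M := by
  have hc : Continuous (deriv Real.smoothTransition) :=
    (Real.smoothTransition.contDiff (n := 1)).continuous_deriv le_rfl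
  obtain ⟨M, hM⟩ := (isCompact_Icc (a := (0 : ℝ)) (b := 1)).exists_bound_of_continuousOn
    hc.continuousOn
  refine ⟨max M 0, le_max_right _ _, ?_⟩
  intro s
  by_cases h : s ∈ Icc (0 : ℝ) 1
  · exact (hM s h).trans (le_max_left _ _)
  · have h' : deriv Real.smoothTransition s = 0 := by
      rcases lt_or_ge s 0 with h0 | h0
      · have h2 : Real.smoothTransition =ᶠ[𝓝 s] fun _ => 0 := by
          filter_upwards [Iio_mem_nhds h0] with t ht
          exact Real.smoothTransition.zero_of_nonpos (le_of_lt ht)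
        rw [h2.deriv_eq, deriv_const]
      · have h1 : 1 < s := by
          by_contra h1
          exact h ⟨h0, not_lt.1 h1⟩
        have h2 : Real.smoothTransition =ᶠ[𝓝 s] fun _ => 1 := by
          filter_upwards [Ioi_mem_nhds h1] with t ht
          exact Real.smoothTransition.one_of_one_le (le_of_lt ht)
        rw [h2.deriv_eq, deriv_const]
    rw [h', abs_zero]
    exact le_max_right _ _

section z

variable {V : Type} [NormedAddCommGroup V] [InnerProductSpace ℝ V] [FiniteDimensional ℝ V]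
  [MeasurableSpace V] [BorelSpace V] [Group V]

/-- the cut-off function about `1` -/
noncomputable def CTB_z (ρ ρ' : ℝ) (y : V) : ℝ :=
  Real.smoothTransition ((ρ' ^ 2 - ‖y - 1‖ ^ 2) / (ρ' ^ 2 - ρ ^ 2))

theorem CTB_D {ρ ρ' : ℝ} (h0 : 0 < ρ) (h : ρ < ρ') : 0 < ρ' ^ 2 - ρ ^ 2 := by nlinarith

theorem CTB_smooth (ρ ρ' : ℝ) : ContDiff ℝ ∞ (CTB_z ρ ρ' : V → ℝ) := by
  unfold CTB_z
  refine Real.smoothTransition.contDiff.comp ?_
  refine ContDiff.div_const ?_ _
  refine contDiff_const.sub ?_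
  exact (contDiff_id.sub contDiff_const).norm_sq ℝ

theorem CTB_one {ρ ρ' : ℝ} (h0 : 0 < ρ) (h : ρ < ρ') {y : V} (hy : ‖y - 1‖ ≤ ρ) :
    CTB_z ρ ρ' y = 1 := by
  unfold CTB_z
  apply Real.smoothTransition.one_of_one_le
  rw [le_div_iff₀ (CTB_D h0 h), one_mul]
  have := norm_nonneg (y - 1)
  nlinarith

theorem CTB_zero {ρ ρ' : ℝ} (h0 : 0 < ρ) (h : ρ < ρ') {y : V} (hy : ρ' ≤ ‖y - 1‖) :
    CTB_z ρ ρ' y = 0 := by
  unfold CTB_z
  apply Real.smoothTransition.zero_of_nonpos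
  apply div_nonpos_of_nonpos_of_nonneg _ (CTB_D h0 h).le
  nlinarith

theorem CTB_fd {ρ ρ' : ℝ} (y v : V) :
    fderiv ℝ (CTB_z ρ ρ' : V → ℝ) y v =
      deriv Real.smoothTransition ((ρ' ^ 2 - ‖y - 1‖ ^ 2) / (ρ' ^ 2 - ρ ^ 2)) *
        (-(2 * inner ℝ (y - 1) v) / (ρ' ^ 2 - ρ ^ 2)) := by
  have h1 : HasFDerivAt (fun y : V => y - 1) (ContinuousLinearMap.id ℝ V) y :=
    (hasFDerivAt_id y).sub_const 1
  have h2 := h1.norm_sq
  have h3 := (h2.const_sub (ρ' ^ 2)).mul_const ((ρ' ^ 2 - ρ ^ 2)⁻¹)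
  have h4 : HasDerivAt Real.smoothTransition
      (deriv Real.smoothTransition ((ρ' ^ 2 - ‖y - 1‖ ^ 2) * (ρ' ^ 2 - ρ ^ 2)⁻¹))
      ((ρ' ^ 2 - ‖y - 1‖ ^ 2) * (ρ' ^ 2 - ρ ^ 2)⁻¹) :=
    ((Real.smoothTransition.contDiff (n := 1)).differentiable one_ne_zero _).hasDerivAt
  have h5 := h4.comp_hasFDerivAt y h3
  have h6 : (CTB_z ρ ρ' : V → ℝ) = Real.smoothTransition ∘
      fun y : V => (ρ' ^ 2 - ‖y - 1‖ ^ 2) * (ρ' ^ 2 - ρ ^ 2)⁻¹ := by
    funext w
    simp only [CTB_z, Function.comp_apply, div_eq_mul_inv]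
  rw [h6, h5.fderiv]
  simp only [ContinuousLinearMap.smul_apply, ContinuousLinearMap.neg_apply, smul_eq_mul,
    ContinuousLinearMap.comp_apply, innerSL_apply_apply, ContinuousLinearMap.id_apply,
    nsmul_eq_mul, div_eq_mul_inv]
  push_cast
  ring

theorem CTB_bd {M F ρ ρ' : ℝ} (hM0 : 0 ≤ M) (hM : ∀ s : ℝ, |deriv Real.smoothTransition s| ≤ M)
    (hF0 : 0 ≤ F) (hF : ∀ y ∈ Metric.closedBall (1 : V) 1, ‖fr y‖ ≤ F)
    (h0 : 0 < ρ) (h : ρ < ρ') (h1 : ρ' ≤ 1) (y : V) :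
    ‖gr (CTB_z ρ ρ' : V → ℝ) y‖ ≤ 2 * M * F / (ρ' - ρ) := by
  have hD := CTB_D h0 h
  have hd : 0 < ρ' - ρ := by linarith
  have hR : 0 ≤ 2 * M * F / (ρ' - ρ) := by positivity
  have hg := inner_gr (CTB_z ρ ρ' : V → ℝ) y (gr (CTB_z ρ ρ') y)
  rw [real_inner_self_eq_norm_sq] at hg
  rcases le_or_gt ρ' ‖y - 1‖ with hy | hy
  · have hmin : IsLocalMin (CTB_z ρ ρ' : V → ℝ) y := by
      refine Filter.Eventually.of_forall fun w => ?_
      rw [CTB_zero h0 h hy]
      exact Real.smoothTransition.nonneg _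
    rw [hmin.fderiv_eq_zero, ContinuousLinearMap.zero_apply] at hg
    have : ‖gr (CTB_z ρ ρ' : V → ℝ) y‖ = 0 := by
      simpa using hg
    rw [this]
    exact hR
  · rcases eq_or_lt_of_le (norm_nonneg (gr (CTB_z ρ ρ' : V → ℝ) y)) with h2 | h2
    · rw [← h2]
      exact hR
    · have hfr : ‖fr y‖ ≤ F := hF y (by
        rw [Metric.mem_closedBall, dist_eq_norm]
        linarith)
      rw [CTB_fd] at hg
      obtain ⟨G, hG⟩ : ∃ G, G = ‖gr (CTB_z ρ ρ' : V → ℝ) y‖ := ⟨_, rfl⟩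
      have k1 : |inner ℝ (y - 1) (fr y (gr (CTB_z ρ ρ') y))| ≤ ρ' * (F * G) := by
        refine (abs_real_inner_le_norm _ _).trans ?_
        refine mul_le_mul hy.le ?_ (norm_nonneg _) (by linarith)
        rw [hG]
        exact (ContinuousLinearMap.le_opNorm _ _).trans
          (mul_le_mul_of_nonneg_right hfr (norm_nonneg _))
      have k2 : G ^ 2 ≤ M * (2 * (ρ' * (F * G)) / (ρ' ^ 2 - ρ ^ 2)) := by
        rw [hG, hg]
        refine (le_abs_self _).trans ?_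
        rw [abs_mul, abs_div, abs_neg, abs_mul, abs_two, abs_of_pos hD]
        refine mul_le_mul (hM _) ?_ (by positivity) hM0
        rw [← hG]
        exact div_le_div_of_nonneg_right (mul_le_mul_of_nonneg_left k1 (by norm_num)) hD.le
      rw [← hG] at h2 ⊢
      have k3 : G ≤ M * (2 * (ρ' * F) / (ρ' ^ 2 - ρ ^ 2)) := by
        have e : M * (2 * (ρ' * (F * G)) / (ρ' ^ 2 - ρ ^ 2)) =
            M * (2 * (ρ' * F) / (ρ' ^ 2 - ρ ^ 2)) * G := by ring
        rw [e, pow_two] at k2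
        exact le_of_mul_le_mul_right k2 h2
      refine k3.trans ?_
      have e : M * (2 * (ρ' * F) / (ρ' ^ 2 - ρ ^ 2)) =
          2 * M * F / (ρ' - ρ) * (ρ' / (ρ' + ρ)) := by
        have : ρ' ^ 2 - ρ ^ 2 = (ρ' - ρ) * (ρ' + ρ) := by ring
        rw [this]
        have : ρ' + ρ ≠ 0 := by linarith
        field_simp
      rw [e]
      refine mul_le_of_le_one_right hR ?_
      rw [div_le_one (by linarith)]
      linarith

end z

/-- **CTB**. -/
theorem CTB (hFRA : FRA_stmt) (hGRR : GRR_stmt) : CTB_stmt := by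
  intro V _ _ _ _ _ _ hV
  have hfr : Continuous (fr : V → V →L[ℝ] V) := (hFRA V hV).1.continuous
  obtain ⟨F, hF⟩ := (isCompact_closedBall (1 : V) 1).exists_bound_of_continuousOn hfr.continuousOn
  obtain ⟨M, hM0, hM⟩ := CTB_eta
  have hF' : ∀ y ∈ Metric.closedBall (1 : V) 1, ‖fr y‖ ≤ max F 0 := fun y hy =>
    (hF y hy).trans (le_max_left _ _)
  have hF0 : (0 : ℝ) ≤ max F 0 := le_max_right _ _
  have hgrl := (hGRR V hV).2.2.2.2.2.2.2
  refine ⟨2 * M * max F 0 + 1, 1, by positivity, one_pos, ?_⟩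
  intro x ρ ρ' h0 h h1
  have hd : 0 < ρ' - ρ := by linarith
  have htop := top hV
  refine ⟨fun y => CTB_z ρ ρ' (x⁻¹ * y), ⟨?_, ?_, ?_, ?_⟩, ?_, ?_, ?_⟩
  · exact (CTB_smooth ρ ρ').comp (smooth_left hV x⁻¹)
  · refine HasCompactSupport.of_support_subset_isCompact
      (K := (fun y => x * y) '' Metric.closedBall (1 : V) ρ')
      ((isCompact_closedBall (1 : V) ρ').image (smooth_left hV x).continuous) ?_
    intro y hy
    refine ⟨x⁻¹ * y, ?_, by simp⟩
    rw [Metric.mem_closedBall, dist_eq_norm]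
    by_contra hc
    exact hy (CTB_zero h0 h (not_le.1 hc).le)
  · intro y
    exact Real.smoothTransition.nonneg _
  · intro y
    exact Real.smoothTransition.le_one _
  · rintro y ⟨w, hw, rfl⟩
    show CTB_z ρ ρ' (x⁻¹ * (x * w)) = 1
    rw [inv_mul_cancel_left]
    rw [Metric.mem_ball, dist_eq_norm] at hw
    exact CTB_one h0 h hw.le
  · intro y hy
    refine CTB_zero h0 h ?_
    by_contra hc
    apply hy
    refine ⟨x⁻¹ * y, ?_, by simp⟩
    rw [Metric.mem_ball, dist_eq_norm]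
    exact not_le.1 hc
  · intro y
    rw [hgrl (CTB_z ρ ρ') ((CTB_smooth ρ ρ').differentiable (by simp)) x⁻¹ y]
    refine (CTB_bd hM0 hM hF0 hF' h0 h h1 (x⁻¹ * y)).trans ?_
    exact div_le_div_of_nonneg_right (by linarith) hd.le

end Pool.Agent.MLG
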